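import Pool.Agent.N922.PQ.Lat

/-!
# Project PQ (helper922), part NRM: indefinite unimodular ternary forms of determinant `-1`
-/

set_option autoImplicit false

namespace Pool.Agent.N592.PQ

open Matrix
open Pool.Agent.N922.PQ (JJ S_NRM)

/-! ### Equivalence -/

/-- equivalence of integral ternary forms -/
def Eqv (G G' : Matrix (Fin 3) (Fin 3) ℤ) : Prop :=
  ∃ U : Matrix (Fin 3) (Fin 3) ℤ, IsUnit U.det ∧ U * G * Uᵀ = G'

/-- the form takes a positive value -/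
def Pv (G : Matrix (Fin 3) (Fin 3) ℤ) : Prop := ∃ v : Fin 3 → ℤ, 0 < v ⬝ᵥ G *ᵥ v

lemma Eqv.refl (G : Matrix (Fin 3) (Fin 3) ℤ) : Eqv G G := ⟨1, by simp, by simp⟩

lemma Eqv.trans {G G' G'' : Matrix (Fin 3) (Fin 3) ℤ} (h : Eqv G G') (h' : Eqv G' G'') :
    Eqv G G'' := by
  obtain ⟨U, hU, rfl⟩ := h
  obtain ⟨U', hU', rfl⟩ := h'
  refine ⟨U' * U, by rw [det_mul]; exact hU'.mul hU, ?_⟩
  rw [transpose_mul]
  simp only [Matrix.mul_assoc]

lemma Eqv.det {G G' : Matrix (Fin 3) (Fin 3) ℤ} (h : Eqv G G') : G'.det = G.det := by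
  obtain ⟨U, hU, rfl⟩ := h
  rw [det_mul, det_mul, det_transpose]
  rcases Int.isUnit_iff.1 hU with h1 | h1 <;> rw [h1] <;> ring

lemma Eqv.pv {G G' : Matrix (Fin 3) (Fin 3) ℤ} (h : Eqv G G') (hp : Pv G) : Pv G' := by
  obtain ⟨U, hU, rfl⟩ := h
  obtain ⟨v, hv⟩ := hp
  have e1 : U⁻¹ * U = 1 := nonsing_inv_mul U hU
  have e2 : Uᵀ * (U⁻¹)ᵀ = 1 := by rw [← transpose_mul, e1, transpose_one]
  have e3 : U⁻¹ * (U * G * Uᵀ) = G * Uᵀ := by
    rw [← Matrix.mul_assoc, ← Matrix.mul_assoc, e1, Matrix.one_mul]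
  have e : (v ᵥ* U⁻¹) ⬝ᵥ (U * G * Uᵀ) *ᵥ (v ᵥ* U⁻¹) = v ⬝ᵥ G *ᵥ v := by
    have e4 : v ᵥ* U⁻¹ = (U⁻¹)ᵀ *ᵥ v := (mulVec_transpose _ _).symm
    rw [dotProduct_mulVec, vecMul_vecMul, e3, e4, dotProduct_mulVec, vecMul_vecMul,
      Matrix.mul_assoc, e2, Matrix.mul_one, dotProduct_mulVec]
  exact ⟨v ᵥ* U⁻¹, by rw [e]; exact hv⟩

/-! ### Explicit matrices -/

/-- the symmetric matrix -/
def M (a b c d e f : ℤ) : Matrix (Fin 3) (Fin 3) ℤ := !![a, d, e; d, b, f; e, f, c]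

/-- the determinant -/
def D (a b c d e f : ℤ) : ℤ := a * b * c + 2 * d * e * f - a * f ^ 2 - b * e ^ 2 - c * d ^ 2

lemma det_M (a b c d e f : ℤ) : (M a b c d e f).det = D a b c d e f := by
  unfold M D
  rw [det_fin_three]
  simp
  ring

/-- a change of the basis -/
lemma mv {a b c d e f : ℤ} (u1 u2 u3 v1 v2 v3 w1 w2 w3 : ℤ) {a' b' c' d' e' f' : ℤ}
    (h : u1 * (v2 * w3 - v3 * w2) - u2 * (v1 * w3 - v3 * w1) + u3 * (v1 * w2 - v2 * w1) = 1 ∨
      u1 * (v2 * w3 - v3 * w2) - u2 * (v1 * w3 - v3 * w1) + u3 * (v1 * w2 - v2 * w1) = -1)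
    (ha : a' = a * u1 ^ 2 + b * u2 ^ 2 + c * u3 ^ 2 + 2 * d * u1 * u2 + 2 * e * u1 * u3 +
      2 * f * u2 * u3)
    (hb : b' = a * v1 ^ 2 + b * v2 ^ 2 + c * v3 ^ 2 + 2 * d * v1 * v2 + 2 * e * v1 * v3 +
      2 * f * v2 * v3)
    (hc : c' = a * w1 ^ 2 + b * w2 ^ 2 + c * w3 ^ 2 + 2 * d * w1 * w2 + 2 * e * w1 * w3 +
      2 * f * w2 * w3)
    (hd : d' = a * u1 * v1 + b * u2 * v2 + c * u3 * v3 + d * (u1 * v2 + u2 * v1) +
      e * (u1 * v3 + u3 * v1) + f * (u2 * v3 + u3 * v2))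
    (he : e' = a * u1 * w1 + b * u2 * w2 + c * u3 * w3 + d * (u1 * w2 + u2 * w1) +
      e * (u1 * w3 + u3 * w1) + f * (u2 * w3 + u3 * w2))
    (hf : f' = a * v1 * w1 + b * v2 * w2 + c * v3 * w3 + d * (v1 * w2 + v2 * w1) +
      e * (v1 * w3 + v3 * w1) + f * (v2 * w3 + v3 * w2)) :
    Eqv (M a b c d e f) (M a' b' c' d' e' f') := by
  refine ⟨!![u1, u2, u3; v1, v2, v3; w1, w2, w3], ?_, ?_⟩
  · rw [Int.isUnit_iff, det_fin_three]
    simp only [of_apply, cons_val', cons_val_zero, cons_val_one, cons_val]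
    rcases h with h | h
    · left
      linarith
    · right
      linarith
  · subst ha hb hc hd he hf
    ext i j
    fin_cases i <;> fin_cases j <;> simp [M, Matrix.mul_apply, Fin.sum_univ_three] <;> ring

/-- every symmetric matrix -/
lemma eq_M (G : Matrix (Fin 3) (Fin 3) ℤ) (h : G.IsSymm) :
    G = M (G 0 0) (G 1 1) (G 2 2) (G 0 1) (G 0 2) (G 1 2) := by
  have h1 := h.apply 0 1
  have h2 := h.apply 0 2
  have h3 := h.apply 1 2
  ext i j
  fin_cases i <;> fin_cases j <;> simp [M] <;> assumption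

lemma JJ_eq : JJ = M 0 1 0 0 1 0 := rfl

/-! ### Reduction of binary forms -/

lemma small (A B : ℤ) (hA : A ≠ 0) : ∃ k : ℤ, 2 * |B + k * A| ≤ |A| := by
  have h1 := Int.emod_nonneg B hA
  have h2 := Int.emod_lt_abs B hA
  have h3 := Int.mul_ediv_add_emod B A
  rcases le_or_gt (2 * (B % A)) |A| with h | h
  · refine ⟨-(B / A), ?_⟩
    have e : B + -(B / A) * A = B % A := by linarith
    rw [e, abs_of_nonneg h1]
    exact h
  · rcases lt_or_gt_of_ne hA with h4 | h4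
    · refine ⟨-(B / A) + 1, ?_⟩
      rw [abs_of_neg h4] at h h2 ⊢
      have e : B + (-(B / A) + 1) * A = B % A + A := by linarith
      rw [e, abs_of_nonpos (by linarith)]
      linarith
    · refine ⟨-(B / A) - 1, ?_⟩
      rw [abs_of_pos h4] at h h2 ⊢
      have e : B + (-(B / A) - 1) * A = B % A - A := by linarith
      rw [e, abs_of_nonpos (by linarith)]
      linarith

lemma bin (n : ℕ) : ∀ A B C : ℤ, A.natAbs ≤ n → ∃ p q r s : ℤ, p * s - q * r = 1 ∧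
    3 * (A * p ^ 2 + 2 * B * p * q + C * q ^ 2) ^ 2 ≤ 4 * |A * C - B ^ 2| := by
  induction n with
  | zero =>
    intro A B C hA
    have h0 : A = 0 := Int.natAbs_eq_zero.1 (Nat.le_zero.1 hA)
    refine ⟨1, 0, 0, 1, by ring, ?_⟩
    rw [h0]
    have := abs_nonneg (0 * C - B ^ 2)
    nlinarith
  | succ n ih =>
    intro A B C hA
    by_cases h0 : A = 0
    · refine ⟨1, 0, 0, 1, by ring, ?_⟩
      rw [h0]
      have := abs_nonneg (0 * C - B ^ 2)
      nlinarith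
    · obtain ⟨k, hk⟩ := small A B h0
      set B' := B + k * A with hB'
      set C' := C + 2 * k * B + k ^ 2 * A with hC'
      have hD : A * C' - B' ^ 2 = A * C - B ^ 2 := by
        rw [hB', hC']
        ring
      rcases lt_or_ge |C'| |A| with h1 | h1
      · have h2 : C'.natAbs ≤ n := by
          have h3 : C'.natAbs < A.natAbs := by
            rw [Int.abs_eq_natAbs, Int.abs_eq_natAbs] at h1
            exact_mod_cast h1
          omega
        obtain ⟨p, q, r, s, h3, h4⟩ := ih C' (-B') A h2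
        refine ⟨p * k - q, p, r * k - s, r, by linarith, ?_⟩
        have e1 : A * (p * k - q) ^ 2 + 2 * B * (p * k - q) * p + C * p ^ 2 =
            C' * p ^ 2 + 2 * (-B') * p * q + A * q ^ 2 := by
          rw [hB', hC']
          ring
        have e2 : C' * A - (-B') ^ 2 = A * C - B ^ 2 := by
          rw [← hD]
          ring
        rw [e1, ← e2]
        exact h4
      · refine ⟨1, 0, 0, 1, by ring, ?_⟩
        rw [← hD]
        have e1 : A * 1 ^ 2 + 2 * B * 1 * 0 + C * 0 ^ 2 = A := by ring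
        rw [e1]
        have h2 : |A| * |C'| - B' ^ 2 ≤ |A * C' - B' ^ 2| := by
          rw [← abs_mul]
          have h3 := abs_sub_abs_le_abs_sub (A * C') (B' ^ 2)
          rw [abs_of_nonneg (sq_nonneg B')] at h3
          exact h3
        have h3 : |A| * |A| ≤ |A| * |C'| := mul_le_mul_of_nonneg_left h1 (abs_nonneg _)
        have h4 : |A| * |A| = A ^ 2 := by rw [abs_mul_abs_self]; ring
        have h5 : 4 * B' ^ 2 ≤ A ^ 2 := by
          have h6 : (2 * |B'|) ^ 2 ≤ |A| ^ 2 := pow_le_pow_left₀ (by positivity) hk 2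
          rw [mul_pow, sq_abs, sq_abs] at h6
          linarith
        linarith

/-! ### Reduction of ternary forms -/

lemma step {a b c d e f : ℤ} (hD : D a b c d e f = -1) (h : 2 ≤ |a|) :
    ∃ a' b' c' d' e' f' : ℤ, Eqv (M a b c d e f) (M a' b' c' d' e' f') ∧ |a'| < |a| := by
  have ha : a ≠ 0 := by
    rintro rfl
    norm_num at h
  obtain ⟨p, q, r, s, h1, h2⟩ := bin (a * b - d ^ 2).natAbs (a * b - d ^ 2) (a * f - d * e)
    (a * c - e ^ 2) le_rfl
  have e1 : (a * b - d ^ 2) * (a * c - e ^ 2) - (a * f - d * e) ^ 2 = a * D a b c d e f := by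
    unfold D
    ring
  rw [e1, hD, mul_neg_one, abs_neg] at h2
  set A' := (a * b - d ^ 2) * p ^ 2 + 2 * (a * f - d * e) * p * q + (a * c - e ^ 2) * q ^ 2 with hA'
  set β := b * p ^ 2 + 2 * f * p * q + c * q ^ 2 with hβ
  set δ := d * p + e * q with hδ
  obtain ⟨t, ht⟩ := small a δ ha
  set β' := a * t ^ 2 + 2 * t * δ + β with hβ'
  set δ' := δ + t * a with hδ'
  have e2 : a * β' - δ' ^ 2 = A' := by
    rw [hβ', hδ', hδ, hβ, hA']
    ring
  refine ⟨β', a, c * s ^ 2 + 2 * f * r * s + b * r ^ 2, δ', _, _, mv t p q 1 0 0 0 r s ?_ ?_ ?_ ?_ ?_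
    rfl rfl, ?_⟩
  · right
    linarith
  · rw [hβ', hδ, hβ]
    ring
  · ring
  · ring
  · rw [hδ', hδ]
    ring
  · by_contra hcon
    rw [not_lt] at hcon
    have k1 : |a| * |β'| ≤ δ' ^ 2 + |A'| := by
      rw [← abs_mul]
      have k2 : a * β' = δ' ^ 2 + A' := by linarith
      rw [k2]
      have k3 := abs_add_le (δ' ^ 2) A'
      rw [abs_of_nonneg (sq_nonneg δ')] at k3
      exact k3
    have k2 : |a| * |a| ≤ |a| * |β'| := mul_le_mul_of_nonneg_left hcon (abs_nonneg _)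
    have k3 : 4 * δ' ^ 2 ≤ |a| * |a| := by
      have h6 : (2 * |δ'|) ^ 2 ≤ |a| ^ 2 := pow_le_pow_left₀ (by positivity) ht 2
      rw [mul_pow, sq_abs] at h6
      linarith
    have k4 : 3 * (|a| * |a|) ≤ 4 * |A'| := by linarith
    have k5 : |A'| ^ 2 = A' ^ 2 := sq_abs A'
    have k6 : (3 * (|a| * |a|)) ^ 2 ≤ (4 * |A'|) ^ 2 := pow_le_pow_left₀ (by positivity) k4 2
    have k7 : 27 * (|a| * |a|) ^ 2 ≤ 64 * |a| := by nlinarith
    set x := |a| with hx
    have k8 : 8 * x ≤ (x * x) ^ 2 := by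
      have k9 : 8 ≤ x ^ 3 := by
        have := pow_le_pow_left₀ (by norm_num : (0 : ℤ) ≤ 2) h 3
        linarith
      have k10 : (x * x) ^ 2 = x ^ 3 * x := by ring
      rw [k10]
      exact mul_le_mul_of_nonneg_right k9 (by linarith)
    linarith

lemma red (n : ℕ) : ∀ a b c d e f : ℤ, D a b c d e f = -1 → a.natAbs ≤ n →
    ∃ a' b' c' d' e' f' : ℤ, Eqv (M a b c d e f) (M a' b' c' d' e' f') ∧ |a'| ≤ 1 := by
  induction n with
  | zero =>
    intro a b c d e f _ ha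
    have h0 : a = 0 := Int.natAbs_eq_zero.1 (Nat.le_zero.1 ha)
    exact ⟨a, b, c, d, e, f, Eqv.refl _, by rw [h0]; norm_num⟩
  | succ n ih =>
    intro a b c d e f hD ha
    by_cases h : |a| ≤ 1
    · exact ⟨a, b, c, d, e, f, Eqv.refl _, h⟩
    · obtain ⟨a', b', c', d', e', f', h1, h2⟩ := step hD (by omega)
      have h3 : D a' b' c' d' e' f' = -1 := by
        rw [← det_M, h1.det, det_M, hD]
      have h4 : a'.natAbs ≤ n := by
        rw [Int.abs_eq_natAbs, Int.abs_eq_natAbs] at h2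
        omega
      obtain ⟨a₁, b₁, c₁, d₁, e₁, f₁, h5, h6⟩ := ih a' b' c' d' e' f' h3 h4
      exact ⟨a₁, b₁, c₁, d₁, e₁, f₁, h1.trans h5, h6⟩

/-! ### Isotropic forms -/

lemma iso (b c d e f : ℤ) (hD : D 0 b c d e f = -1) : Eqv (M 0 b c d e f) JJ := by
  -- the first row is `(0, 0, 1)`
  obtain ⟨x, y, hxy⟩ : ∃ x y : ℤ, d * x + e * y = 1 := by
    refine ⟨c * d - e * f, b * e - d * f, ?_⟩
    unfold D at hD
    linarith
  have h1 : Eqv (M 0 b c d e f) (M 0 (b * e ^ 2 + c * d ^ 2 - 2 * f * e * d)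
      (b * x ^ 2 + c * y ^ 2 + 2 * f * x * y) 0 1 (b * e * x - c * d * y + f * (e * y - d * x))) := by
    refine mv 1 0 0 0 e (-d) 0 x y ?_ ?_ ?_ ?_ ?_ ?_ ?_
    · left
      linarith
    · ring
    · ring
    · ring
    · ring
    · linarith
    · ring
  have h2 : b * e ^ 2 + c * d ^ 2 - 2 * f * e * d = 1 := by
    unfold D at hD
    linarith
  rw [h2] at h1
  generalize b * x ^ 2 + c * y ^ 2 + 2 * f * x * y = c₁ at h1
  generalize b * e * x - c * d * y + f * (e * y - d * x) = f₁ at h1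
  have h3 : Eqv (M 0 1 c₁ 0 1 f₁) (M 0 1 (c₁ - f₁ ^ 2) 0 1 0) := by
    refine mv 1 0 0 0 1 0 0 (-f₁) 1 ?_ ?_ ?_ ?_ ?_ ?_ ?_
    · left
      ring
    all_goals ring
  have h4 := h1.trans h3
  generalize c₁ - f₁ ^ 2 = c₂ at h4
  refine h4.trans ?_
  rw [JJ_eq]
  rcases Int.even_or_odd' c₂ with ⟨k, hk | hk⟩
  · refine mv 1 0 0 0 1 0 (-k) 0 1 ?_ ?_ ?_ ?_ ?_ ?_ ?_
    · left
      ring
    · ring
    · ring
    · rw [hk]
      ring
    all_goals ring
  · refine mv 1 0 0 (-1) 1 0 (-(k + 1)) 1 1 ?_ ?_ ?_ ?_ ?_ ?_ ?_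
    · left
      ring
    · ring
    · ring
    · rw [hk]
      ring
    all_goals ring

/-- a diagonal form with two entries of opposite sign -/
lemma opp {G : Matrix (Fin 3) (Fin 3) ℤ} (hG : G.det = -1) {b c d e f : ℤ}
    (h : Eqv G (M 0 b c d e f)) : Eqv G JJ := by
  refine h.trans (iso b c d e f ?_)
  rw [← det_M, h.det, hG]

theorem nrm : S_NRM := by
  intro G hs hG hp
  obtain ⟨a, b, c, d, e, f, h1, h2⟩ : ∃ a b c d e f : ℤ, Eqv G (M a b c d e f) ∧ |a| ≤ 1 := by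
    have h0 := eq_M G hs
    have h3 : D (G 0 0) (G 1 1) (G 2 2) (G 0 1) (G 0 2) (G 1 2) = -1 := by
      rw [← det_M, ← h0, hG]
    obtain ⟨a', b', c', d', e', f', h4, h5⟩ := red _ _ _ _ _ _ _ h3 le_rfl
    rw [← h0] at h4
    exact ⟨a', b', c', d', e', f', h4, h5⟩
  by_cases ha0 : a = 0
  · rw [ha0] at h1
    exact opp hG h1
  have ha : a = 1 ∨ a = -1 := by
    rw [abs_le] at h2
    omega
  have ha2 : a * a = 1 := by rcases ha with h | h <;> rw [h] <;> norm_num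
  -- split off the first vector
  have h3 : Eqv (M a b c d e f) (M a (b - a * d ^ 2) (c - a * e ^ 2) 0 0 (f - a * d * e)) := by
    refine mv 1 0 0 (-(a * d)) 1 0 (-(a * e)) 0 1 ?_ ?_ ?_ ?_ ?_ ?_ ?_
    · left
      ring
    · ring
    · linear_combination (-a * d ^ 2) * ha2
    · linear_combination (-a * e ^ 2) * ha2
    · linear_combination d * ha2
    · linear_combination e * ha2
    · linear_combination (-a * d * e) * ha2
  have h4 := h1.trans h3
  generalize b - a * d ^ 2 = b₁ at h4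
  generalize c - a * e ^ 2 = c₁ at h4
  generalize f - a * d * e = f₁ at h4
  have h5 : a * (b₁ * c₁ - f₁ ^ 2) = -1 := by
    have h6 := h4.det
    rw [det_M, hG] at h6
    unfold D at h6
    linarith
  have h6 : |b₁ * c₁ - f₁ ^ 2| = 1 := by
    have h7 := congrArg abs h5
    rw [abs_mul, abs_neg, abs_one] at h7
    have h8 : |a| = 1 := by rcases ha with h | h <;> rw [h] <;> norm_num
    rw [h8, one_mul] at h7
    exact h7
  obtain ⟨p, q, r, s, h7, h8⟩ := bin b₁.natAbs b₁ f₁ c₁ le_rfl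
  rw [h6] at h8
  have h9 : Eqv (M a b₁ c₁ 0 0 f₁) (M a (b₁ * p ^ 2 + 2 * f₁ * p * q + c₁ * q ^ 2)
      (b₁ * r ^ 2 + 2 * f₁ * r * s + c₁ * s ^ 2) 0 0
      (b₁ * p * r + c₁ * q * s + f₁ * (p * s + q * r))) := by
    refine mv 1 0 0 0 p q 0 r s ?_ ?_ ?_ ?_ ?_ ?_ ?_
    · left
      linarith
    all_goals ring
  have h10 := h4.trans h9
  generalize b₁ * p ^ 2 + 2 * f₁ * p * q + c₁ * q ^ 2 = b₂ at h8 h10
  generalize b₁ * r ^ 2 + 2 * f₁ * r * s + c₁ * s ^ 2 = c₂ at h10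
  generalize b₁ * p * r + c₁ * q * s + f₁ * (p * s + q * r) = f₂ at h10
  have hb : b₂ = 0 ∨ b₂ = 1 ∨ b₂ = -1 := by
    have k1 : b₂ ^ 2 < 2 := by linarith
    have k2 : b₂ < 2 := by nlinarith
    have k3 : -2 < b₂ := by nlinarith
    omega
  have h11 : a * (b₂ * c₂ - f₂ ^ 2) = -1 := by
    have h6 := h10.det
    rw [det_M, hG] at h6
    unfold D at h6
    linarith
  by_cases hb0 : b₂ = 0
  · rw [hb0] at h10
    have h12 : Eqv (M a 0 c₂ 0 0 f₂) (M 0 a c₂ 0 f₂ 0) := by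
      refine mv 0 1 0 1 0 0 0 0 1 ?_ ?_ ?_ ?_ ?_ ?_ ?_
      · right
        ring
      all_goals ring
    exact opp hG (h10.trans h12)
  have hb1 : b₂ = 1 ∨ b₂ = -1 := hb.resolve_left hb0
  have hb2 : b₂ * b₂ = 1 := by rcases hb1 with h | h <;> rw [h] <;> norm_num
  -- the diagonal form
  have h12 : Eqv (M a b₂ c₂ 0 0 f₂) (M a b₂ (c₂ - b₂ * f₂ ^ 2) 0 0 0) := by
    refine mv 1 0 0 0 1 0 0 (-(b₂ * f₂)) 1 ?_ ?_ ?_ ?_ ?_ ?_ ?_
    · left
      ring
    · ring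
    · ring
    · linear_combination (-b₂ * f₂ ^ 2) * hb2
    · ring
    · ring
    · linear_combination f₂ * hb2
  have h13 := h10.trans h12
  have h14 : a * b₂ * (c₂ - b₂ * f₂ ^ 2) = -1 := by
    have h6 := h13.det
    rw [det_M, hG] at h6
    unfold D at h6
    linarith
  generalize c₂ - b₂ * f₂ ^ 2 = c₃ at h13 h14
  rcases ha with h | h <;> rcases hb1 with h' | h' <;> rw [h, h'] at h13 h14
  · have hc : c₃ = -1 := by linarith
    rw [hc] at h13
    refine opp hG (h13.trans (mv 1 0 1 0 1 0 0 0 1 (Or.inl (by ring)) (by ring) rfl rfl rfl rfl rfl))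
  · refine opp hG (h13.trans (mv 1 1 0 0 1 0 0 0 1 (Or.inl (by ring)) (by ring) rfl rfl rfl rfl rfl))
  · refine opp hG (h13.trans (mv 1 1 0 0 1 0 0 0 1 (Or.inl (by ring)) (by ring) rfl rfl rfl rfl rfl))
  · have hc : c₃ = -1 := by linarith
    rw [hc] at h13
    obtain ⟨v, hv⟩ := h13.pv hp
    exfalso
    have e1 : v ⬝ᵥ (M (-1) (-1) (-1) 0 0 0) *ᵥ v = -(v 0 ^ 2 + v 1 ^ 2 + v 2 ^ 2) := by
      simp [M, dotProduct, mulVec, Fin.sum_univ_three]
      ring
    rw [e1] at hv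
    nlinarith [sq_nonneg (v 0), sq_nonneg (v 1), sq_nonneg (v 2)]

end Pool.Agent.N592.PQ
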